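import Pool.Agent.Helper330.CST.Defs

set_option autoImplicit false
set_option linter.all false

namespace Pool.Agent.Helper330.CST
open Set TopologicalSpace


theorem N_nonempty {e : W2 → W2 → Prop} (t : Node e) : (N t).Nonempty := by
  obtain ⟨M, hM, hsub⟩ := (IsChain.singleton (r := (· ≤ ·)) (a := t)).exists_maxChain
  exact ⟨⟨M, hM⟩, hsub (Set.mem_singleton t)⟩

end Pool.Agent.Helper330.CST
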