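import Pool.Agent.Helper330.CST.Defs

set_option autoImplicit false
set_option linter.all false

namespace Pool.Agent.Helper330.CST
open Set TopologicalSpace


theorem tree {e : W2 → W2 → Prop} {s t u : Node e} (hs : s ≤ u) (ht : t ≤ u) (h : s.ht ≤ t.ht) :
    s ≤ t := by
  refine ⟨h, fun x hx => ?_⟩
  exact (hs.2 x hx).trans (ht.2 x (hx.trans_le h)).symm

end Pool.Agent.Helper330.CST
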