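import Pool.Agent.Helper330.CST.Defs
import Pool.Agent.Helper330.CST.P_tree

set_option autoImplicit false
set_option linter.all false

namespace Pool.Agent.Helper330.CST
open Set TopologicalSpace


theorem down {e : W2 → W2 → Prop} {C : Set (Node e)} (hC : IsMaxChain (· ≤ ·) C) {s t : Node e}
    (ht : t ∈ C) (hs : s ≤ t) : s ∈ C := by
  have hins : IsChain (· ≤ ·) (insert s C) := by
    refine hC.1.insert ?_
    intro u hu _
    rcases hC.1.total hu ht with h | h
    · rcases le_total s.ht u.ht with h1 | h1
      · exact Or.inl (tree hs h h1)
      · exact Or.inr (tree h hs h1)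
    · exact Or.inl (hs.trans h)
  have heq : C = insert s C := hC.2 hins (Set.subset_insert s C)
  rw [heq]
  exact Set.mem_insert s C

end Pool.Agent.Helper330.CST
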