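import Pool.Agent.Helper330.CST.Defs

set_option autoImplicit false
set_option linter.all false

namespace Pool.Agent.Helper330.CST
open Set TopologicalSpace


theorem exten {e : W2 → W2 → Prop} (hc : Coh e) (t : Node e) (b : W2) (hb : t.ht < b) (v : Prop) :
    ∃ s : Node e, t ≤ s ∧ s.ht = b ∧ (t.ht ∈ s.val ↔ v) := by
  have hF : (({x | x < t.ht ∧ ¬ (x ∈ t.val ↔ e t.ht x)} ∪
      {x | x < t.ht ∧ ¬ (e t.ht x ↔ e b x)}) ∪ {t.ht}).Finite :=
    (t.fin.union (hc t.ht b hb)).union (Set.finite_singleton _)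
  refine ⟨⟨b, {x | (x < t.ht ∧ x ∈ t.val) ∨ (x = t.ht ∧ v) ∨ (t.ht < x ∧ x < b ∧ e b x)}, ?_, ?_⟩,
    ⟨hb.le, ?_⟩, rfl, ?_⟩
  · rintro x (⟨h1, _⟩ | ⟨h1, _⟩ | ⟨_, h1, _⟩)
    · exact h1.trans hb
    · rw [h1]; exact hb
    · exact h1
  · refine hF.subset ?_
    rintro x ⟨hxb, hx⟩
    rcases lt_trichotomy x t.ht with h | h | h
    · left
      by_cases h2 : (x ∈ t.val ↔ e t.ht x)
      · right
        refine ⟨h, ?_⟩
        intro h3
        apply hx
        rw [← h3, ← h2]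
        constructor
        · rintro (⟨_, h4⟩ | ⟨h4, _⟩ | ⟨h4, _⟩)
          · exact h4
          · exact absurd h4 (ne_of_lt h)
          · exact absurd h4 (not_lt.mpr h.le)
        · intro h4
          exact Or.inl ⟨h, h4⟩
      · left
        exact ⟨h, h2⟩
    · right
      exact h
    · exfalso
      apply hx
      constructor
      · rintro (⟨h4, _⟩ | ⟨h4, _⟩ | ⟨_, _, h4⟩)
        · exact absurd h4 (not_lt.mpr h.le)
        · exact absurd h4 (ne_of_gt h)
        · exact h4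
      · intro h4
        exact Or.inr (Or.inr ⟨h, hxb, h4⟩)
  · intro x hx
    constructor
    · intro h
      exact Or.inl ⟨hx, h⟩
    · rintro (⟨_, h4⟩ | ⟨h4, _⟩ | ⟨h4, _⟩)
      · exact h4
      · exact absurd h4 (ne_of_lt hx)
      · exact absurd h4 (not_lt.mpr hx.le)
  · constructor
    · rintro (⟨h4, _⟩ | ⟨_, h4⟩ | ⟨h4, _⟩)
      · exact absurd h4 (lt_irrefl _)
      · exact h4
      · exact absurd h4 (lt_irrefl _)
    · intro h
      exact Or.inr (Or.inl ⟨rfl, h⟩)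

end Pool.Agent.Helper330.CST
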