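import Pool.Agent.Helper330.CST.Defs
import Pool.Agent.Helper330.CST.P_exten
import Pool.Agent.Helper330.CST.P_down
import Pool.Agent.Helper330.CST.P_N_nonempty

set_option autoImplicit false
set_option linter.all false

namespace Pool.Agent.Helper330.CST
open Set TopologicalSpace


theorem N_sub {e : W2 → W2 → Prop} (hc : Coh e) (s t : Node e) : N s ⊆ N t ↔ t ≤ s := by
  constructor
  · intro h
    obtain ⟨C, hC⟩ := N_nonempty s
    have hCt : t ∈ C.1 := h hC
    have hCs : s ∈ C.1 := hC
    rcases C.2.1.total hCt hCs with h1 | h1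
    · exact h1
    · by_contra hne
      have hlt : s.ht < t.ht := by
        rcases lt_or_eq_of_le h1.1 with h2 | h2
        · exact h2
        · exfalso
          apply hne
          refine ⟨h2.ge, ?_⟩
          intro x hx
          rw [← h2] at hx
          exact (h1.2 x hx).symm
      obtain ⟨r, hsr, hrh, hrv⟩ := exten hc s t.ht hlt (¬ (s.ht ∈ t.val))
      obtain ⟨C', hC'⟩ := N_nonempty r
      have hr' : r ∈ C'.1 := hC'
      have hs' : s ∈ C'.1 := down C'.2 hr' hsr
      have ht' : t ∈ C'.1 := h hs'
      rcases C'.2.1.total hr' ht' with h2 | h2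
      · have h3 := h2.2 s.ht (by rw [hrh]; exact hlt)
        tauto
      · have h3 := h2.2 s.ht hlt
        tauto
  · intro h C hC
    exact down C.2 hC h

end Pool.Agent.Helper330.CST
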