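import Pool.Agent.Helper330.CST.Defs

set_option autoImplicit false
set_option linter.all false

namespace Pool.Agent.Helper330.CST
open Set TopologicalSpace


theorem bdd_succ : (Cardinal.aleph 2 : Cardinal.{0}) = Order.succ (Cardinal.aleph 1) := by
  rw [← Cardinal.aleph_succ]
  congr 1
  rw [← Ordinal.add_one_eq_succ, one_add_one_eq_two]

theorem bdd_Iic (a : W2) : Cardinal.mk (Iic a) ≤ Cardinal.aleph 1 := by
  have h1 : Cardinal.mk (Iio a) < Cardinal.aleph 2 := Cardinal.mk_Iio_toType_ord_lt a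
  have h0 : Cardinal.mk (Iio a) ≤ Cardinal.aleph 1 :=
    Order.lt_succ_iff.mp (h1.trans_eq bdd_succ)
  have h2 : Iic a = insert a (Iio a) := Set.Iio_insert.symm
  rw [h2]
  refine (Cardinal.mk_insert_le).trans ?_
  refine (add_le_add_left h0 1).trans ?_
  rw [Cardinal.add_one_eq (Cardinal.aleph0_le_aleph 1)]

theorem bdd {ι : Type} (h : Cardinal.mk ι ≤ Cardinal.aleph 1) (f : ι → W2) :
    ∃ a : W2, ∀ i, f i < a := by
  by_contra hcon
  push Not at hcon
  have huniv : (⋃ i, Iic (f i)) = Set.univ := by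
    rw [Set.eq_univ_iff_forall]
    intro a
    obtain ⟨i, hi⟩ := hcon a
    exact Set.mem_iUnion.2 ⟨i, hi⟩
  have h1 := Cardinal.mk_iUnion_le (fun i => Iic (f i))
  rw [huniv, Cardinal.mk_univ, Cardinal.mk_ord_toType] at h1
  have h2 : (⨆ i, Cardinal.mk (Iic (f i))) ≤ Cardinal.aleph 1 := ciSup_le' fun i => bdd_Iic (f i)
  have h3 : Cardinal.mk ι * (⨆ i, Cardinal.mk (Iic (f i))) ≤ Cardinal.aleph 1 * Cardinal.aleph 1 :=
    mul_le_mul' h h2
  rw [Cardinal.mul_eq_self (Cardinal.aleph0_le_aleph 1)] at h3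
  have h4 := h1.trans h3
  exact absurd (bdd_succ.symm.le.trans h4) (not_le.mpr (Order.lt_succ _))

end Pool.Agent.Helper330.CST
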