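import Pool.Agent.Helper330.CST.Defs
import Pool.Agent.Helper330.CST.P_tree
import Pool.Agent.Helper330.CST.P_down

set_option autoImplicit false
set_option linter.all false

namespace Pool.Agent.Helper330.CST
open Set TopologicalSpace


theorem nonempty_W2 : Nonempty W2 := by
  rw [Ordinal.nonempty_toType_iff, ne_eq, Cardinal.ord_eq_zero]
  exact (Cardinal.aleph_pos 2).ne'

theorem nonempty_Node (e : W2 → W2 → Prop) : Nonempty (Node e) := by
  obtain ⟨a⟩ := nonempty_W2
  refine ⟨⟨a, {x | x < a ∧ e a x}, fun x hx => hx.1, ?_⟩⟩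
  have h : {x | x < a ∧ ¬ (x ∈ {x | x < a ∧ e a x} ↔ e a x)} = ∅ := by
    ext x
    simp only [mem_setOf_eq, mem_empty_iff_false, iff_false, not_and, not_not]
    intro hx
    exact ⟨fun h => h.2, fun h => ⟨hx, h⟩⟩
  rw [h]
  exact finite_empty

theorem basis {e : W2 → W2 → Prop} : IsTopologicalBasis (range (N (e := e))) := by
  refine ⟨?_, ?_, rfl⟩
  · rintro _ ⟨s, rfl⟩ _ ⟨t, rfl⟩ C ⟨hs, ht⟩
    have hs' : s ∈ C.1 := hs
    have ht' : t ∈ C.1 := ht
    rcases C.2.1.total hs' ht' with h | h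
    · exact ⟨N t, ⟨t, rfl⟩, ht, fun D hD => ⟨down D.2 hD h, hD⟩⟩
    · exact ⟨N s, ⟨s, rfl⟩, hs, fun D hD => ⟨hD, down D.2 hD h⟩⟩
  · apply eq_univ_of_forall
    intro C
    by_contra hcon
    have hempty : C.1 = ∅ := by
      rw [eq_empty_iff_forall_notMem]
      intro s hs
      exact hcon (mem_sUnion.mpr ⟨N s, ⟨s, rfl⟩, hs⟩)
    obtain ⟨a⟩ := nonempty_Node e
    have h := C.2.2 (IsChain.singleton (r := (· ≤ ·)) (a := a)) (by rw [hempty]; exact empty_subset _)
    rw [hempty] at h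
    exact (singleton_ne_empty a) h.symm

end Pool.Agent.Helper330.CST
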