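import Pool.Agent.Helper330.CST.Defs

set_option autoImplicit false
set_option linter.all false

namespace Pool.Agent.Helper330.CST
open Set TopologicalSpace


theorem restr {e : W2 → W2 → Prop} (hc : Coh e) (t : Node e) (a : W2) (ha : a ≤ t.ht) :
    ∃ s : Node e, s.ht = a ∧ s ≤ t := by
  rcases ha.eq_or_lt with h | h
  · exact ⟨t, h.symm, le_rfl⟩
  · refine ⟨⟨a, {x | x ∈ t.val ∧ x < a}, fun x hx => hx.2, ?_⟩, rfl, ?_⟩
    · refine (t.fin.union (hc a t.ht h)).subset ?_
      rintro x ⟨hx, hne⟩
      by_cases h1 : x ∈ t.val ↔ e t.ht x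
      · right
        refine ⟨hx, fun h2 => hne ?_⟩
        constructor
        · intro h3
          exact h2.2 (h1.1 h3.1)
        · intro h3
          exact ⟨h1.2 (h2.1 h3), hx⟩
      · left
        exact ⟨hx.trans h, h1⟩
    · refine ⟨ha, fun x hx => ?_⟩
      constructor
      · intro h3
        exact h3.1
      · intro h3
        exact ⟨h3, hx⟩

end Pool.Agent.Helper330.CST
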