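import Pool.Agent.Helper330.CST.Defs
import Pool.Agent.Helper330.CST.P_bdd
import Pool.Agent.Helper330.CST.P_restr
import Pool.Agent.Helper330.CST.P_tree
import Pool.Agent.Helper330.CST.P_exten
import Pool.Agent.Helper330.CST.P_down
import Pool.Agent.Helper330.CST.P_N_nonempty
import Pool.Agent.Helper330.CST.P_N_sub
import Pool.Agent.Helper330.CST.P_basis

set_option autoImplicit false
set_option linter.all false

namespace Pool.Agent.Helper330.CST
open Set TopologicalSpace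


/-- changing nodes -/
def jumpCh {e : W2 → W2 → Prop} (B : Set (Set (Sp e))) (a : W2) (t : Node e) : Prop :=
  a < t.ht ∧ ∃ U ∈ B, N t ⊆ U ∧ ∀ s ≤ t, s.ht = a → ¬ N s ⊆ U

theorem jump {e : W2 → W2 → Prop} (hc : Coh e) (hS : Sous e) (B : Set (Set (Sp e)))
    (hB : IsTopologicalBasis B) (a : W2) : ∃ b : W2, a < b ∧
      ∀ t : Node e, b ≤ t.ht → ∀ s r : Node e, s ≤ t → r ≤ t → s.ht = a → r.ht = b →
        ∃ U ∈ B, N r ⊆ U ∧ ¬ N s ⊆ U := by
  classical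
  let A : Set (Node e) := {t | jumpCh B a t ∧ ∀ s, s < t → ¬ jumpCh B a s}
  have hA : ∃ b0 : W2, ∀ t ∈ A, t.ht ≤ b0 := by
    by_contra hcon
    push Not at hcon
    obtain ⟨s, hs, t, ht, hst⟩ := hS A (fun a' => by
      obtain ⟨t, ht, h⟩ := hcon a'
      exact ⟨t, ht, h⟩)
    exact ht.2 s hst hs.1
  obtain ⟨b0, hb0⟩ := hA
  have hcard : Cardinal.mk Bool ≤ Cardinal.aleph 1 :=
    (Cardinal.mk_le_aleph0).trans (by
      rw [← Cardinal.aleph_zero]
      exact Cardinal.aleph_le_aleph.mpr zero_le_one)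
  obtain ⟨b, hb⟩ := bdd hcard (fun i : Bool => if i then b0 else a)
  have hbb0 : b0 < b := by simpa using hb true
  have hba : a < b := by simpa using hb false
  refine ⟨b, hba, ?_⟩
  intro t htb s r hst hrt hsa hrb
  obtain ⟨b1, hb1⟩ := bdd hcard (fun i : Bool => t.ht)
  have hb1 : t.ht < b1 := hb1 true
  obtain ⟨t1, ht1, ht1h, -⟩ := exten hc t b1 hb1 True
  obtain ⟨C, hC⟩ := N_nonempty t1
  have hop : IsOpen (N t1) := isOpen_generateFrom_of_mem ⟨t1, rfl⟩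
  obtain ⟨U, hUB, hCU, hUN⟩ := hB.exists_subset_of_mem_open hC hop
  obtain ⟨V, ⟨t2, rfl⟩, hCV, hVU⟩ := basis.exists_subset_of_mem_open hCU (hB.isOpen hUB)
  have hex : ∃ t' : Node e, t1 ≤ t' ∧ N t' ⊆ U := by
    rcases C.2.1.total hC hCV with h | h
    · exact ⟨t2, h, hVU⟩
    · exact ⟨t1, le_rfl, ((N_sub hc t1 t2).2 h).trans hVU⟩
  obtain ⟨t', ht1t', hNt'⟩ := hex
  have htt' : t ≤ t' := ht1.trans ht1t'
  have hch : jumpCh B a t' := by
    refine ⟨lt_of_lt_of_le (lt_of_lt_of_le hba htb) htt'.1, U, hUB, hNt', ?_⟩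
    intro s' hs' hs'a hsub
    have h1 : t1 ≤ s' := (N_sub hc s' t1).1 (hsub.trans hUN)
    have h2 := h1.1
    rw [ht1h, hs'a] at h2
    exact absurd (lt_of_lt_of_le (lt_of_lt_of_le (lt_of_lt_of_le hba htb) hb1.le) h2) (lt_irrefl _)
  have hne : {h : W2 | ∃ u ≤ t', jumpCh B a u ∧ u.ht = h}.Nonempty := ⟨t'.ht, t', le_rfl, hch, rfl⟩
  obtain ⟨h0, ⟨u, hut', huch, huh⟩, hmin⟩ :=
    (wellFounded_lt (α := W2)).has_min {h : W2 | ∃ u ≤ t', jumpCh B a u ∧ u.ht = h} hne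
  have huA : u ∈ A := by
    refine ⟨huch, ?_⟩
    intro s' hs' hs'ch
    have h1 := hmin s'.ht ⟨s', hs'.le.trans hut', hs'ch, rfl⟩
    rw [← huh, not_lt] at h1
    have h2 := tree hut' (hs'.le.trans hut') h1
    exact absurd (lt_of_lt_of_le hs' h2) (lt_irrefl _)
  have hub : u.ht ≤ r.ht := by
    rw [hrb]
    exact ((hb0 u huA).trans_lt hbb0).le
  have hur : u ≤ r := tree hut' (hrt.trans htt') hub
  obtain ⟨hau, U', hU'B, hNu, hU'⟩ := huch
  have hsu : s ≤ u := tree (hst.trans htt') hut' (by rw [hsa]; exact hau.le)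
  exact ⟨U', hU'B, ((N_sub hc r u).2 hur).trans hNu, hU' s hsu hsa⟩

end Pool.Agent.Helper330.CST
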