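import Pool.Agent.Helper330.CST.Defs
import Pool.Agent.Helper330.CST.P_bdd
import Pool.Agent.Helper330.CST.P_restr
import Pool.Agent.Helper330.CST.P_tree
import Pool.Agent.Helper330.CST.P_down
import Pool.Agent.Helper330.CST.P_N_nonempty
import Pool.Agent.Helper330.CST.P_N_sub
import Pool.Agent.Helper330.CST.P_jump

set_option autoImplicit false
set_option linter.all false

namespace Pool.Agent.Helper330.CST
open Set TopologicalSpace


theorem nopc {e : W2 → W2 → Prop} (hc : Coh e) (hS : Sous e) (B : Set (Set (Sp e)))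
    (hB : IsTopologicalBasis B) : ¬ ∀ x : Sp e, {U | U ∈ B ∧ x ∈ U}.Countable := by
  intro hpc
  have hW1 : Cardinal.mk W1 = Cardinal.aleph 1 := Cardinal.mk_ord_toType _
  choose g hg1 hg2 using fun a => jump hc hS B hB a
  have step : ∀ (i : W1) (f : ∀ j : W1, j < i → W2), ∃ a : W2, ∀ (j : W1) (hj : j < i),
      g (f j hj) < a := by
    intro i f
    have hcard : Cardinal.mk {j : W1 // j < i} ≤ Cardinal.aleph 1 :=
      (Cardinal.mk_subtype_le _).trans (le_of_eq hW1)
    obtain ⟨a, ha⟩ := bdd hcard (fun j : {j : W1 // j < i} => g (f j.1 j.2))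
    exact ⟨a, fun j hj => ha ⟨j, hj⟩⟩
  choose F hF using step
  have hwf : WellFounded (fun a b : W1 => a < b) := wellFounded_lt
  let al : W1 → W2 := hwf.fix F
  have hal : ∀ i j : W1, j < i → g (al j) < al i := by
    intro i j hj
    have h1 : al i = F i (fun j _ => al j) := hwf.fix_eq F i
    rw [h1]
    exact hF i (fun j _ => al j) j hj
  obtain ⟨d, hd⟩ := bdd (le_of_eq hW1) (fun i : W1 => g (al i))
  let t : Node e := ⟨d, {x | x < d ∧ e d x}, fun x hx => hx.1, by
    have : {x | x < d ∧ ¬ (x ∈ {x | x < d ∧ e d x} ↔ e d x)} = ∅ := by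
      ext x
      constructor
      · rintro ⟨h1, h2⟩
        exact h2 ⟨fun h => h.2, fun h => ⟨h1, h⟩⟩
      · intro h
        exact absurd h (Set.notMem_empty x)
    rw [this]
    exact Set.finite_empty⟩
  choose s hs1 hs2 using fun i : W1 => restr hc t (al i) ((hg1 (al i)).trans (hd i)).le
  choose r hr1 hr2 using fun i : W1 => restr hc t (g (al i)) (hd i).le
  choose U hUB hUr hUs using fun i : W1 =>
    hg2 (al i) t (hd i).le (s i) (r i) (hs2 i) (hr2 i) (hs1 i) (hr1 i)
  have hne : ∀ i j : W1, j < i → U i ≠ U j := by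
    intro i j hij he
    have h1 : r j ≤ s i := tree (hr2 j) (hs2 i) (by rw [hr1, hs1]; exact (hal i j hij).le)
    have h2 : N (s i) ⊆ N (r j) := (N_sub hc (s i) (r j)).mpr h1
    apply hUs i
    rw [he]
    exact h2.trans (hUr j)
  have hinj : Function.Injective U := by
    intro i j he
    rcases lt_trichotomy i j with h | h | h
    · exact absurd he.symm (hne j i h)
    · exact h
    · exact absurd he (hne i j h)
  obtain ⟨C, hC⟩ := N_nonempty t
  have hK : {V | V ∈ B ∧ C ∈ V}.Countable := hpc C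
  have hmem : ∀ i, U i ∈ {V | V ∈ B ∧ C ∈ V} := by
    intro i
    refine ⟨hUB i, hUr i ?_⟩
    exact down C.2 hC (hr2 i)
  have : Countable {V | V ∈ B ∧ C ∈ V} := hK.to_subtype
  have hcount : Countable W1 := by
    refine Function.Injective.countable (f := fun i : W1 => (⟨U i, hmem i⟩ : {V | V ∈ B ∧ C ∈ V})) ?_
    intro i j he
    exact hinj (Subtype.ext_iff.mp he)
  have h3 : Cardinal.mk W1 ≤ Cardinal.aleph0 := Cardinal.mk_le_aleph0_iff.mpr hcount
  rw [hW1] at h3
  exact absurd h3 (not_le.mpr Cardinal.aleph0_lt_aleph_one)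

end Pool.Agent.Helper330.CST
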