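import Pool.Agent.Helper330.CST.Defs
import Pool.Agent.Helper330.CST.P_bdd
import Pool.Agent.Helper330.CST.P_restr
import Pool.Agent.Helper330.CST.P_tree
import Pool.Agent.Helper330.CST.P_exten
import Pool.Agent.Helper330.CST.P_down

set_option autoImplicit false
set_option linter.all false

namespace Pool.Agent.Helper330.CST
open Set TopologicalSpace


theorem closedpart {e : W2 → W2 → Prop} (hc : Coh e) (A : Set (Node e)) (d : W2)
    (hd : ∀ t ∈ A, t.ht < d) (n : ℕ) :
    IsClosed (⋃ t ∈ {t | t ∈ A ∧ {x | x < t.ht ∧ ¬ (x ∈ t.val ↔ e d x)}.ncard = n}, N t) := by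
  classical
  -- the difference sets
  let D : Node e → Set W2 := fun t => {x | x < t.ht ∧ ¬ (x ∈ t.val ↔ e d x)}
  have hDfin : ∀ t : Node e, t.ht < d → (D t).Finite := by
    intro t ht
    refine (t.fin.union (hc t.ht d ht)).subset ?_
    rintro x ⟨hx1, hx2⟩
    by_cases h : (x ∈ t.val ↔ e t.ht x)
    · right
      exact ⟨hx1, fun h' => hx2 (h.trans h')⟩
    · left
      exact ⟨hx1, h⟩
  have hDmono : ∀ s t : Node e, s ≤ t → D s ⊆ D t := by
    rintro s t hst x ⟨hx1, hx2⟩
    exact ⟨hx1.trans_le hst.1, fun h => hx2 ((hst.2 x hx1).trans h)⟩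
  rw [← isOpen_compl_iff, isOpen_iff_forall_mem_open]
  intro C hC
  by_contra hcon
  -- each `s ∈ C` lies below some `t` with `(D t).ncard = n`
  have h1 : ∀ s ∈ C.1, ∃ t : Node e, t.ht < d ∧ s ≤ t ∧ (D t).ncard = n := by
    intro s hs
    by_contra hno
    apply hcon
    refine ⟨N s, ?_, isOpen_generateFrom_of_mem ⟨s, rfl⟩, hs⟩
    intro C' hC' hmem
    rw [mem_iUnion₂] at hmem
    obtain ⟨t, ⟨htA, htn⟩, htC'⟩ := hmem
    have htC : t ∉ C.1 := by
      intro htC
      apply hC
      rw [mem_iUnion₂]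
      exact ⟨t, ⟨htA, htn⟩, htC⟩
    rcases C'.2.1.total hC' htC' with hst | hts
    · exact hno ⟨t, hd t htA, hst, htn⟩
    · exact htC (down C.2 hs hts)
  have hlt : ∀ s ∈ C.1, s.ht < d := by
    intro s hs
    obtain ⟨t, ht, hst, _⟩ := h1 s hs
    exact lt_of_le_of_lt hst.1 ht
  have hcard : ∀ s ∈ C.1, (D s).ncard ≤ n := by
    intro s hs
    obtain ⟨t, ht, hst, hn⟩ := h1 s hs
    rw [← hn]
    exact Set.ncard_le_ncard (hDmono s t hst) (hDfin t ht)
  -- `C` is nonempty
  have hne : C.1.Nonempty := by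
    rw [Set.nonempty_iff_ne_empty]
    intro hempty
    let b : Node e := ⟨d, {x | x < d ∧ e d x}, fun x hx => hx.1, by
      have : {x | x < d ∧ ¬ (x ∈ {x | x < d ∧ e d x} ↔ e d x)} = ∅ := by
        ext x
        simp only [mem_setOf_eq, mem_empty_iff_false, iff_false, not_and, not_not]
        intro hx
        exact ⟨fun h => h.2, fun h => ⟨hx, h⟩⟩
      rw [this]
      exact Set.finite_empty⟩
    have h2 := C.2.2 (t := {b}) (by
      intro x hx y hy hxy
      rw [mem_singleton_iff] at hx hy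
      exact absurd (hx.trans hy.symm) hxy) (by rw [hempty]; exact empty_subset _)
    rw [hempty] at h2
    exact (Set.singleton_ne_empty b) h2.symm
  -- `s0` with the largest difference set
  obtain ⟨s0, hs0, hmax⟩ : ∃ s0 ∈ C.1, ∀ s ∈ C.1, (D s).ncard ≤ (D s0).ncard := by
    have hS1 : ((fun s => (D s).ncard) '' C.1).Nonempty := hne.image _
    have hS2 : BddAbove ((fun s => (D s).ncard) '' C.1) := by
      refine ⟨n, ?_⟩
      rintro _ ⟨s, hs, rfl⟩
      exact hcard s hs
    obtain ⟨s0, hs0, hs0'⟩ := Nat.sSup_mem hS1 hS2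
    refine ⟨s0, hs0, fun s hs => ?_⟩
    show (D s).ncard ≤ (D s0).ncard
    have h3 : (D s0).ncard = sSup ((fun s => (D s).ncard) '' C.1) := hs0'
    rw [h3]
    exact le_csSup hS2 ⟨s, hs, rfl⟩
  have hDeq : ∀ s ∈ C.1, s0 ≤ s → D s0 = D s := by
    intro s hs hss
    exact Set.eq_of_subset_of_ncard_le (hDmono s0 s hss) (hmax s hs) (hDfin s (hlt s hs))
  -- the first missing height
  have hHne : {a : W2 | ¬ ∃ s ∈ C.1, s.ht = a}.Nonempty := by
    refine ⟨d, ?_⟩
    rintro ⟨s, hs, hsd⟩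
    exact absurd (hlt s hs) (by rw [hsd]; exact lt_irrefl d)
  obtain ⟨η, hη, hηmin⟩ : ∃ η : W2, (¬ ∃ s ∈ C.1, s.ht = η) ∧
      ∀ a, (¬ ∃ s ∈ C.1, s.ht = a) → η ≤ a := by
    refine ⟨WellFounded.min (wellFounded_lt (α := W2)) _ hHne,
      WellFounded.min_mem (wellFounded_lt (α := W2)) _ hHne, ?_⟩
    intro a ha
    by_contra hlt'
    rw [not_le] at hlt'
    exact WellFounded.not_lt_min (wellFounded_lt (α := W2)) _ ha hlt'
  have hηd : η ≤ d := by
    apply hηmin
    rintro ⟨s, hs, hsd⟩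
    exact absurd (hlt s hs) (by rw [hsd]; exact lt_irrefl d)
  have hsη : ∀ s ∈ C.1, s.ht < η := by
    intro s hs
    by_contra hge
    rw [not_lt] at hge
    obtain ⟨s', hs', hle⟩ := restr hc s η hge
    exact hη ⟨s', down C.2 hs hle, hs'⟩
  -- the node above `C`
  let u : Node e := ⟨η, {x | x < η ∧ (if x < s0.ht then x ∈ s0.val else e d x)},
    fun x hx => hx.1, by
      have hfin2 : {x | x < η ∧ ¬ (e η x ↔ e d x)}.Finite := by
        rcases hηd.eq_or_lt with h | h
        · rw [h]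
          have : {x | x < d ∧ ¬ (e d x ↔ e d x)} = (∅ : Set W2) := by
            ext x; simp
          rw [this]
          exact Set.finite_empty
        · exact hc η d h
      refine ((hDfin s0 (hlt s0 hs0)).union hfin2).subset ?_
      rintro x ⟨hx1, hx2⟩
      by_cases hxe : (e η x ↔ e d x)
      · left
        by_cases hxs : x < s0.ht
        · refine ⟨hxs, fun h => hx2 ?_⟩
          simp only [mem_setOf_eq, if_pos hxs]
          exact ⟨fun h' => hxe.2 (h.1 h'.2), fun h' => ⟨hx1, h.2 (hxe.1 h')⟩⟩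
        · exfalso
          apply hx2
          simp only [mem_setOf_eq, if_neg hxs]
          exact ⟨fun h' => hxe.2 h'.2, fun h' => ⟨hx1, hxe.1 h'⟩⟩
      · right
        exact ⟨hx1, hxe⟩⟩
  have hu : ∀ s ∈ C.1, s ≤ u := by
    intro s hs
    refine ⟨(hsη s hs).le, ?_⟩
    intro x hx
    have hxη : x < η := hx.trans (hsη s hs)
    show x ∈ s.val ↔ (x < η ∧ (if x < s0.ht then x ∈ s0.val else e d x))
    rcases C.2.1.total hs hs0 with h | h
    · have hx0 : x < s0.ht := hx.trans_le h.1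
      rw [if_pos hx0, h.2 x hx]
      exact ⟨fun h' => ⟨hxη, h'⟩, fun h' => h'.2⟩
    · by_cases hx0 : x < s0.ht
      · rw [if_pos hx0, ← h.2 x hx0]
        exact ⟨fun h' => ⟨hxη, h'⟩, fun h' => h'.2⟩
      · rw [if_neg hx0]
        have hxD : x ∉ D s := by
          rw [← hDeq s hs h]
          rintro ⟨h', _⟩
          exact hx0 h'
        have hxe : (x ∈ s.val ↔ e d x) := by
          by_contra hne'
          exact hxD ⟨hx, hne'⟩
        rw [hxe]
        exact ⟨fun h' => ⟨hxη, h'⟩, fun h' => h'.2⟩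
  have hins : C.1 = insert u C.1 := by
    apply C.2.2
    · exact C.2.1.insert (fun s hs _ => Or.inr (hu s hs))
    · exact Set.subset_insert _ _
  have huC : u ∈ C.1 := by
    rw [hins]
    exact Set.mem_insert _ _
  exact hη ⟨u, huC, rfl⟩

end Pool.Agent.Helper330.CST
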