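import Pool.Agent.Helper330.CST.Defs
import Pool.Agent.Helper330.CST.P_bdd
import Pool.Agent.Helper330.CST.P_down
import Pool.Agent.Helper330.CST.P_N_nonempty
import Pool.Agent.Helper330.CST.P_N_sub
import Pool.Agent.Helper330.CST.P_basis
import Pool.Agent.Helper330.CST.P_closedpart

set_option autoImplicit false
set_option linter.all false

namespace Pool.Agent.Helper330.CST
open Set TopologicalSpace


theorem t6_N_anti {e : W2 → W2 → Prop} {s t : Node e} (h : s ≤ t) : N t ⊆ N s := by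
  intro C hC
  exact down C.2 hC h

theorem t6_comp {e : W2 → W2 → Prop} {s t : Node e} {C : Sp e} (h1 : C ∈ N s) (h2 : C ∈ N t) :
    s ≤ t ∨ t ≤ s := C.2.1.total h1 h2

theorem t6_N_open {e : W2 → W2 → Prop} (t : Node e) : IsOpen (N t) :=
  isOpen_generateFrom_of_mem ⟨t, rfl⟩

theorem t6_lt_ht {e : W2 → W2 → Prop} {s t : Node e} (h : s < t) : s.ht < t.ht := by
  obtain ⟨h1, h2⟩ := lt_iff_le_not_ge.mp h
  have h3 : s.ht ≤ t.ht := h1.1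
  rcases h3.lt_or_eq with h4 | h4
  · exact h4
  · exfalso
    apply h2
    refine ⟨h4.ge, fun x hx => ?_⟩
    rw [← h4] at hx
    exact (h1.2 x hx).symm

theorem t6_nbhd {e : W2 → W2 → Prop} {C : Sp e} {W : Set (Sp e)} (hW : IsOpen W) (hC : C ∈ W) :
    ∃ t : Node e, C ∈ N t ∧ N t ⊆ W := by
  obtain ⟨_, ⟨t, rfl⟩, h1, h2⟩ := basis.exists_subset_of_mem_open hC hW
  exact ⟨t, h1, h2⟩

theorem t6_normal {e : W2 → W2 → Prop} : NormalSpace (Sp e) := by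
  refine ⟨fun F G hF hG hFG => ?_⟩
  refine ⟨⋃ t ∈ {t : Node e | N t ∩ G = ∅ ∧ (N t ∩ F).Nonempty}, N t,
    ⋃ t ∈ {t : Node e | N t ∩ F = ∅ ∧ (N t ∩ G).Nonempty}, N t, ?_, ?_, ?_, ?_, ?_⟩
  · exact isOpen_biUnion fun t _ => t6_N_open t
  · exact isOpen_biUnion fun t _ => t6_N_open t
  · intro C hC
    have hCG : C ∈ Gᶜ := fun h => hFG.le_bot ⟨hC, h⟩
    obtain ⟨t, h1, h2⟩ := t6_nbhd hG.isOpen_compl hCG
    refine mem_biUnion (x := t) ⟨?_, ⟨C, h1, hC⟩⟩ h1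
    rw [Set.eq_empty_iff_forall_notMem]
    rintro D ⟨hD1, hD2⟩
    exact h2 hD1 hD2
  · intro C hC
    have hCG : C ∈ Fᶜ := fun h => hFG.le_bot ⟨h, hC⟩
    obtain ⟨t, h1, h2⟩ := t6_nbhd hF.isOpen_compl hCG
    refine mem_biUnion (x := t) ⟨?_, ⟨C, h1, hC⟩⟩ h1
    rw [Set.eq_empty_iff_forall_notMem]
    rintro D ⟨hD1, hD2⟩
    exact h2 hD1 hD2
  · rw [Set.disjoint_left]
    intro C hC hC'
    simp only [mem_iUnion] at hC hC'
    obtain ⟨t, ⟨ht1, ht2⟩, hCt⟩ := hC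
    obtain ⟨s, ⟨hs1, hs2⟩, hCs⟩ := hC'
    rcases t6_comp hCt hCs with h | h
    · obtain ⟨D, hD1, hD2⟩ := hs2
      have : D ∈ N t ∩ G := ⟨t6_N_anti h hD1, hD2⟩
      rw [ht1] at this
      exact this
    · obtain ⟨D, hD1, hD2⟩ := ht2
      have : D ∈ N s ∩ F := ⟨t6_N_anti h hD1, hD2⟩
      rw [hs1] at this
      exact this

theorem t6_gd {e : W2 → W2 → Prop} (hc : Coh e) (hS : Sous e) (F : Set (Sp e)) (hF : IsClosed F) :
    IsGδ F := by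
  set A : Set (Node e) := {t | N t ⊆ Fᶜ ∧ ∀ s < t, ¬ N s ⊆ Fᶜ} with hA
  have hcov : ∀ C ∈ Fᶜ, ∃ t ∈ A, C ∈ N t := by
    intro C hC
    obtain ⟨t0, h1, h2⟩ := t6_nbhd hF.isOpen_compl hC
    have hwf : WellFounded (fun s t : Node e => s.ht < t.ht) :=
      InvImage.wf (fun t : Node e => t.ht) wellFounded_lt
    obtain ⟨t, ⟨ht1, ht2⟩, hmin⟩ := hwf.has_min {t : Node e | t ∈ C.1 ∧ N t ⊆ Fᶜ} ⟨t0, h1, h2⟩
    refine ⟨t, ⟨ht2, fun s hs hsF => ?_⟩, ht1⟩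
    exact hmin s ⟨down C.2 ht1 hs.le, hsF⟩ (t6_lt_ht hs)
  have hbd : ∃ d0 : W2, ∀ t ∈ A, t.ht ≤ d0 := by
    by_contra hcon
    push Not at hcon
    obtain ⟨s, hs, t, ht, hst⟩ := hS A hcon
    exact ht.2 s hst hs.1
  obtain ⟨d0, hd0⟩ := hbd
  obtain ⟨d, hd⟩ := bdd (ι := Unit) (by
    rw [Cardinal.mk_unit]
    exact Cardinal.one_le_aleph0.trans (Cardinal.aleph0_le_aleph 1)) (fun _ => d0)
  have hd' : ∀ t ∈ A, t.ht < d := fun t ht => lt_of_le_of_lt (hd0 t ht) (hd ())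
  have hFe : F = ⋂ n : ℕ,
      (⋃ t ∈ {t | t ∈ A ∧ {x | x < t.ht ∧ ¬ (x ∈ t.val ↔ e d x)}.ncard = n}, N t)ᶜ := by
    ext C
    rw [mem_iInter]
    constructor
    · intro hC n hC'
      simp only [mem_iUnion] at hC'
      obtain ⟨t, ht, hCt⟩ := hC'
      exact ht.1.1 hCt hC
    · intro h
      by_contra hC
      obtain ⟨t, ht, hCt⟩ := hcov C hC
      apply h {x | x < t.ht ∧ ¬ (x ∈ t.val ↔ e d x)}.ncard
      exact mem_biUnion (x := t) ⟨ht, rfl⟩ hCt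
  rw [hFe]
  exact IsGδ.iInter_of_isOpen fun n => (closedpart hc A d hd' n).isOpen_compl

theorem t6 {e : W2 → W2 → Prop} (hc : Coh e) (hS : Sous e) : T6Space (Sp e) := by
  haveI h0 : T0Space (Sp e) := by
    refine ⟨fun C C' h => ?_⟩
    apply Subtype.ext
    ext t
    exact h.mem_open_iff (t6_N_open t)
  haveI h1 : NormalSpace (Sp e) := t6_normal
  haveI h2 : PerfectlyNormalSpace (Sp e) := ⟨fun F hF => t6_gd hc hS F hF⟩
  exact {}

end Pool.Agent.Helper330.CST
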