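import Pool.Agent.Helper330.CST.Defs
import Pool.Agent.Helper330.CST.P_tree
import Pool.Agent.Helper330.CST.P_down
import Pool.Agent.Helper330.CST.P_N_nonempty
import Pool.Agent.Helper330.CST.P_N_sub
import Pool.Agent.Helper330.CST.P_basis

set_option autoImplicit false
set_option linter.all false

namespace Pool.Agent.Helper330.CST
open Set TopologicalSpace


theorem treebase {e : W2 → W2 → Prop} (hc : Coh e) :
    ∃ B : Set (Set (Sp e)), IsTopologicalBasis B ∧ ∅ ∉ B ∧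
        (∀ U ∈ B, ∀ V ∈ B, U ⊆ V ∨ V ⊆ U ∨ Disjoint U V) ∧
        (∀ U ∈ B, ∀ S ⊆ B, S.Nonempty → (∀ W ∈ S, U ⊆ W) →
          ∃ W ∈ S, ∀ W' ∈ S, W' ⊆ W) := by
  refine ⟨range N, basis, ?_, ?_, ?_⟩
  · rintro ⟨t, ht⟩
    exact (N_nonempty t).ne_empty ht
  · rintro _ ⟨s, rfl⟩ _ ⟨t, rfl⟩
    by_cases hd : Disjoint (N s) (N t)
    · exact Or.inr (Or.inr hd)
    · rw [Set.not_disjoint_iff] at hd
      obtain ⟨C, hs, ht⟩ := hd
      rcases C.2.1.total hs ht with h | h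
      · exact Or.inr (Or.inl ((N_sub hc t s).2 h))
      · exact Or.inl ((N_sub hc s t).2 h)
  · rintro _ ⟨s, rfl⟩ S hS hne hU
    have hne2 : {a : W2 | ∃ t : Node e, N t ∈ S ∧ t.ht = a}.Nonempty := by
      obtain ⟨W, hW⟩ := hne
      obtain ⟨t, rfl⟩ := hS hW
      exact ⟨t.ht, t, hW, rfl⟩
    obtain ⟨t, htS, hta⟩ := (wellFounded_lt (α := W2)).min_mem _ hne2
    refine ⟨N t, htS, ?_⟩
    intro W' hW'
    obtain ⟨t', rfl⟩ := hS hW'
    have h1 : t ≤ s := (N_sub hc s t).1 (hU _ htS)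
    have h2 : t' ≤ s := (N_sub hc s t').1 (hU _ hW')
    have h3 : t.ht ≤ t'.ht := by
      rw [hta]
      have hmem : t'.ht ∈ {a : W2 | ∃ t : Node e, N t ∈ S ∧ t.ht = a} := ⟨t', hW', rfl⟩
      exact not_lt.1 ((wellFounded_lt (α := W2)).not_lt_min _ hmem)
    exact (N_sub hc t' t).2 (tree h1 h2 h3)

end Pool.Agent.Helper330.CST
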