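import Mathlib

set_option autoImplicit false
set_option linter.all false

namespace Pool.Agent.Helper330.CST

open Set TopologicalSpace

/-- The well-ordered set of the ordinals below `ω₁`. -/
abbrev W1 : Type := (Cardinal.aleph 1 : Cardinal.{0}).ord.ToType

/-- The well-ordered set of the ordinals below `ω₂`. -/
abbrev W2 : Type := (Cardinal.aleph 2 : Cardinal.{0}).ord.ToType

/-- `e` codes a sequence `(e a)` of subsets of the initial segments `{x | x < a}`, coherent
modulo finite sets. -/
def Coh (e : W2 → W2 → Prop) : Prop :=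
  ∀ a b, a < b → {x | x < a ∧ ¬ (e a x ↔ e b x)}.Finite

/-- A node of height `ht`: a subset of `{x | x < ht}` which is a finite modification of `e ht`. -/
structure Node (e : W2 → W2 → Prop) where
  ht : W2
  val : Set W2
  sub : ∀ x ∈ val, x < ht
  fin : {x | x < ht ∧ ¬ (x ∈ val ↔ e ht x)}.Finite

instance (e : W2 → W2 → Prop) : PartialOrder (Node e) where
  le s t := s.ht ≤ t.ht ∧ ∀ x, x < s.ht → (x ∈ s.val ↔ x ∈ t.val)
  le_refl s := ⟨le_rfl, fun _ _ => Iff.rfl⟩
  le_trans s t u h h' := ⟨h.1.trans h'.1, fun x hx => (h.2 x hx).trans (h'.2 x (hx.trans_le h.1))⟩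
  le_antisymm s t h h' := by
    cases s with
    | mk a v hs hf =>
    cases t with
    | mk b w ht hg =>
    have hab : a = b := le_antisymm h.1 h'.1
    subst hab
    have hvw : v = w := by
      ext x
      constructor
      · intro hx
        exact (h.2 x (hs x hx)).1 hx
      · intro hx
        exact (h'.2 x (ht x hx)).1 hx
    subst hvw
    rfl

/-- Every set of nodes of unbounded height contains two comparable nodes. -/
def Sous (e : W2 → W2 → Prop) : Prop :=
  ∀ A : Set (Node e), (∀ a, ∃ t ∈ A, a < t.ht) → ∃ s ∈ A, ∃ t ∈ A, s < t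

/-- The space of the maximal chains of nodes. -/
def Sp (e : W2 → W2 → Prop) : Type := {C : Set (Node e) // IsMaxChain (· ≤ ·) C}

/-- The maximal chains through a node. -/
def N {e : W2 → W2 → Prop} (t : Node e) : Set (Sp e) := {C | t ∈ C.1}

instance (e : W2 → W2 → Prop) : TopologicalSpace (Sp e) := generateFrom (range N)

end Pool.Agent.Helper330.CST
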